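import Mathlib
import Pool.Agent.Helper917.ToepDefs
import Pool.Agent.Helper917.ToepScalar
import Pool.Agent.Helper917.ToepData
import Pool.Agent.Helper917.Classif
import Pool.Agent.Helper917.TopSep
import Pool.Agent.Helper917.AlgTop

set_option autoImplicit false

open scoped Matrix ComplexConjugate
open Pool.Agent.Helper917 WeakDual

universe u

namespace Pool.Agent.Results.MP_76760e_an.PlanarQOne

/-- Planar admissibility: a finite subset of `ℤ^2` has the `ℂ`-extension property if and only if
it has the `A`-extension property. -/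
def PlanarAdmissible (A : Type u) [NonUnitalCStarAlgebra A] : Prop :=
  ∀ S : Finset (ℤ × ℤ), (HasExt ℂ S ↔ HasExt A S)

/-- The L-shaped set `{(0,0), (1,0), (0,1)}` has the complex extension property. -/
lemma scalar_ext : HasExt ℂ ({0, (1, 0), (0, 1)} : Finset (ℤ × ℤ)) := by
  apply hasExt_complex_three
  intro α β hα hβ
  have hα0 : α ≠ 0 := by rintro rfl; simp at hα
  have hβ0 : β ≠ 0 := by rintro rfl; simp at hβ
  have hcα : conj α = α⁻¹ := by rw [Complex.inv_def, hα]; simp
  have hcβ : conj β = β⁻¹ := by rw [Complex.inv_def, hβ]; simp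
  refine ⟨fun g => α ^ g.1 * β ^ g.2, ?_, by simp, by simp, by simp⟩
  intro i j
  simp only [Prod.fst_sub, Prod.snd_sub, map_mul, map_zpow₀, hcα, hcβ, inv_zpow', zpow_sub₀ hα0,
    zpow_sub₀ hβ0, zpow_neg]
  field_simp

lemma generic_two : Generic ((1, 0) : ℤ × ℤ) (0, 1) := by
  unfold Generic tri
  decide

lemma generic_three : Generic ((1, 0) : ℤ × ℤ) (3 • (1, 0)) := by
  unfold Generic tri
  decide

/-- A C*-algebra is planar-admissible if and only if it is nonzero, commutative, and disjoint
open sigma-compact subsets of its spectrum have disjoint closures. -/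
theorem result (A : Type u) [NonUnitalCStarAlgebra A] :
    PlanarAdmissible A ↔
      Nontrivial A ∧ (∀ x y : A, x * y = y * x) ∧
        ∀ U V : Set (characterSpace ℂ A), IsOpen U → IsSigmaCompact U → IsOpen V →
          IsSigmaCompact V → Disjoint U V → Disjoint (closure U) (closure V) := by
  rw [PlanarAdmissible, classification_aux (A := A) generic_two scalar_ext _ generic_three]
  refine and_congr_right fun _ => ?_
  constructor
  · rintro ⟨h2, h3⟩
    exact ⟨h2, (algSep_iff_sigmaSep A h2).1 h3⟩
  · rintro ⟨h2, h3⟩
    exact ⟨h2, (algSep_iff_sigmaSep A h2).2 h3⟩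

end Pool.Agent.Results.MP_76760e_an.PlanarQOne
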