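import Mathlib
import Pool.Agent.Helper917.ToepDefs
import Pool.Agent.Helper917.ToepScalar
import Pool.Agent.Helper917.ToepKernel

set_option autoImplicit false

open scoped Matrix ComplexConjugate
open Pool.Agent.Helper917

namespace Pool.Agent.Results.MP_76760e_an.PlanarQTwo

/-- The L-shaped set `{(0,0), (1,0), (0,1)}` has the complex extension property. -/
lemma scalar_ext : HasExt ℂ ({0, (1, 0), (0, 1)} : Finset (ℤ × ℤ)) := by
  apply hasExt_complex_three
  intro α β hα hβ
  have hα0 : α ≠ 0 := by rintro rfl; simp at hα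
  have hβ0 : β ≠ 0 := by rintro rfl; simp at hβ
  have hcα : conj α = α⁻¹ := by rw [Complex.inv_def, hα]; simp
  have hcβ : conj β = β⁻¹ := by rw [Complex.inv_def, hβ]; simp
  refine ⟨fun g => α ^ g.1 * β ^ g.2, ?_, by simp, by simp, by simp⟩
  intro i j
  simp only [Prod.fst_sub, Prod.snd_sub, map_mul, map_zpow₀, hcα, hcβ, inv_zpow', zpow_sub₀ hα0,
    zpow_sub₀ hβ0, zpow_neg]
  field_simp

abbrev X : Type := Set.Icc (-1 : ℝ) 1

/-- the function `t ↦ max t 0 + i min t 0` on `[-1, 1]` -/
noncomputable def wf : C(X, ℂ) where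
  toFun t := ((max (t : ℝ) 0 : ℝ) : ℂ) + Complex.I * ((min (t : ℝ) 0 : ℝ) : ℂ)
  continuous_toFun := by fun_prop

/-- the function `t ↦ √(1 - t²)` on `[-1, 1]` -/
noncomputable def cf : C(X, ℂ) where
  toFun t := ((Real.sqrt (1 - (t : ℝ) ^ 2) : ℝ) : ℂ)
  continuous_toFun := by fun_prop

lemma cf_star : star cf = cf := by
  ext t
  simp [cf]

lemma rel : cf * cf + star wf * wf = 1 := by
  ext t
  have ht : (t : ℝ) ^ 2 ≤ 1 := by
    have h1 := t.2.1
    have h2 := t.2.2
    nlinarith
  have h1 : ((Real.sqrt (1 - (t : ℝ) ^ 2) : ℝ) : ℂ) * ((Real.sqrt (1 - (t : ℝ) ^ 2) : ℝ) : ℂ)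
      = 1 - (t : ℂ) ^ 2 := by
    rw [← Complex.ofReal_mul, Real.mul_self_sqrt (by linarith)]
    push_cast; ring
  simp only [cf, wf, ContinuousMap.add_apply, ContinuousMap.mul_apply, ContinuousMap.star_apply,
    ContinuousMap.coe_mk, ContinuousMap.one_apply, h1, star_add, star_mul, Complex.star_def,
    Complex.conj_ofReal, Complex.conj_I]
  rcases le_total (t : ℝ) 0 with h | h
  · rw [max_eq_right h, min_eq_left h]
    push_cast
    linear_combination (-(t : ℂ) ^ 2) * Complex.I_sq
  · rw [max_eq_left h, min_eq_right h]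
    push_cast
    ring

/-- the data -/
noncomputable def dat (g : ℤ × ℤ) : C(X, ℂ) :=
  if g = (0, 0) then 1 else if g = (1, 0) then cf else if g = (-1, 0) then cf
  else if g = (1, -1) then wf else if g = (-1, 1) then star wf else 0

/-- a factorisation column for each point -/
noncomputable def col (g : ℤ × ℤ) : Fin 2 → C(X, ℂ) :=
  if g = (0, 0) then ![1, 0] else if g = (1, 0) then ![cf, star wf] else ![0, 1]

lemma dat_pos : IsPos (toep dat ({0, (1, 0), (0, 1)} : Finset (ℤ × ℤ))) := by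
  classical
  set S : Finset (ℤ × ℤ) := {0, (1, 0), (0, 1)} with hS
  let k0 : S := ⟨0, by simp [hS]⟩
  let k1 : S := ⟨(1, 0), by simp [hS]⟩
  have hk : k0 ≠ k1 := by
    intro h; have := congrArg Subtype.val h; simp [k0, k1, Prod.ext_iff] at this
  refine ⟨Matrix.of fun k j => if k = k0 then col j 0 else if k = k1 then col j 1 else 0, ?_⟩
  ext1 i j
  have hsum : ∀ i j : S, ((Matrix.of fun k j => if k = k0 then col j 0 else
      if k = k1 then col j 1 else 0 : Matrix S S C(X, ℂ))ᴴ
      * (Matrix.of fun k j => if k = k0 then col j 0 else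
      if k = k1 then col j 1 else 0 : Matrix S S C(X, ℂ))) i j
      = star (col i 0) * col j 0 + star (col i 1) * col j 1 := by
    intro i j
    rw [Matrix.mul_apply]
    simp only [Matrix.conjTranspose_apply, Matrix.of_apply]
    rw [← Finset.add_sum_erase _ _ (Finset.mem_univ k0),
      ← Finset.add_sum_erase _ _ (Finset.mem_erase.2 ⟨hk.symm, Finset.mem_univ k1⟩),
      Finset.sum_eq_zero]
    · simp [hk.symm]
    · intro k hk'
      simp only [Finset.mem_erase, Finset.mem_univ, and_true] at hk'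
      simp [hk'.1, hk'.2]
  rw [hsum]
  have hrel : star cf * cf + star (star wf) * star wf = 1 := by
    rw [cf_star, star_star, mul_comm wf]; exact rel
  obtain ⟨i, hi⟩ := i
  obtain ⟨j, hj⟩ := j
  simp only [hS, Finset.mem_insert, Finset.mem_singleton] at hi hj
  rcases hi with rfl | rfl | rfl <;> rcases hj with rfl | rfl | rfl <;>
    simp [toep, dat, col, cf_star, rel, mul_comm wf, Prod.ext_iff]

theorem not_ext : ¬ HasExt C(X, ℂ) ({0, (1, 0), (0, 1)} : Finset (ℤ × ℤ)) := by
  intro H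
  obtain ⟨b, hb, hpos⟩ := H dat dat_pos ({0, (1, 0), (0, 1), (1, 1), (0, 2)} : Finset (ℤ × ℤ))
    (by decide)
  have b0 : b 0 = 1 := by
    have := hb 0 (by simp) 0 (by simp)
    simpa [dat, Prod.ext_iff] using this
  have b1 : b (1, 0) = cf * 1 := by
    have := hb (1, 0) (by simp) 0 (by simp)
    simpa [dat] using this
  have b2 : b (0, 1) = 0 := by
    have := hb (0, 1) (by simp) 0 (by simp)
    simpa [dat] using this
  have b12 : b ((1, 0) - (0, 1)) = wf * 1 := by
    have := hb (1, 0) (by simp) (0, 1) (by simp)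
    simpa [dat] using this
  have key := forced_value b _ hpos (1, 0) (0, 1) (by simp) (by simp) (by simp) (by simp)
    (by simp) 1 cf wf (by simp) cf_star rel b0 b1 b2 b12
  set f : C(X, ℂ) := b ((0, 1) + (0, 1)) with hf
  have hpt : ∀ t : X, cf t * (wf t * f t) = -(cf t * (star (wf t))) := by
    intro t
    have := congrArg (fun g : C(X, ℂ) => g t) key
    simpa using this
  have hc : ∀ t : X, |(t : ℝ)| < 1 → cf t ≠ 0 := by
    intro t ht
    simp only [cf, ContinuousMap.coe_mk]
    have : 0 < 1 - (t : ℝ) ^ 2 := by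
      have := (sq_lt_one_iff_abs_lt_one (t : ℝ)).2 ht
      linarith
    exact_mod_cast (Real.sqrt_pos.2 this).ne'
  have hpos' : ∀ t : X, 0 < (t : ℝ) → (t : ℝ) < 1 → f t = -1 := by
    intro t h0 h1
    have h2 := mul_left_cancel₀ (hc t (by rw [abs_of_pos h0]; exact h1))
      ((hpt t).trans (by rw [mul_neg] : -(cf t * star (wf t)) = cf t * -(star (wf t))))
    have h3 : wf t = ((t : ℝ) : ℂ) := by
      simp only [wf, ContinuousMap.coe_mk]
      rw [max_eq_left h0.le, min_eq_right h0.le]; simp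
    rw [h3] at h2
    have h4 : ((t : ℝ) : ℂ) ≠ 0 := by exact_mod_cast h0.ne'
    apply mul_left_cancel₀ h4
    rw [h2]; simp
  have hneg' : ∀ t : X, (t : ℝ) < 0 → -1 < (t : ℝ) → f t = 1 := by
    intro t h0 h1
    have h2 := mul_left_cancel₀ (hc t (by rw [abs_of_neg h0]; linarith))
      ((hpt t).trans (by rw [mul_neg] : -(cf t * star (wf t)) = cf t * -(star (wf t))))
    have h3 : wf t = Complex.I * ((t : ℝ) : ℂ) := by
      simp only [wf, ContinuousMap.coe_mk]
      rw [max_eq_right h0.le, min_eq_left h0.le]; simp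
    rw [h3] at h2
    have h4 : Complex.I * ((t : ℝ) : ℂ) ≠ 0 :=
      mul_ne_zero Complex.I_ne_zero (by exact_mod_cast h0.ne)
    apply mul_left_cancel₀ h4
    rw [h2]; simp
  -- both one-sided limits at `0`
  have hmem : ∀ n : ℕ, (1 / ((n : ℝ) + 2)) ∈ Set.Icc (-1 : ℝ) 1 ∧ -(1 / ((n : ℝ) + 2)) ∈
      Set.Icc (-1 : ℝ) 1 := by
    intro n
    have h1 : (0 : ℝ) < 1 / ((n : ℝ) + 2) := by positivity
    have h2 : 1 / ((n : ℝ) + 2) ≤ 1 := by
      rw [div_le_one (by positivity)]
      have : (0 : ℝ) ≤ n := by positivity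
      linarith
    exact ⟨⟨by linarith, h2⟩, ⟨by linarith, by linarith⟩⟩
  have hlim : Filter.Tendsto (fun n : ℕ => 1 / ((n : ℝ) + 2)) Filter.atTop (nhds 0) := by
    have := (tendsto_one_div_add_atTop_nhds_zero_nat (𝕜 := ℝ)).comp
      (Filter.tendsto_add_atTop_nat 1)
    refine this.congr fun n => ?_
    simp only [Function.comp_apply, Nat.cast_add, Nat.cast_one]
    ring
  have z : X := ⟨0, by norm_num⟩
  have l1 : Filter.Tendsto (fun n : ℕ => (⟨1 / ((n : ℝ) + 2), (hmem n).1⟩ : X)) Filter.atTop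
      (nhds ⟨0, by norm_num⟩) := tendsto_subtype_rng.2 (by simpa using hlim)
  have l2 : Filter.Tendsto (fun n : ℕ => (⟨-(1 / ((n : ℝ) + 2)), (hmem n).2⟩ : X)) Filter.atTop
      (nhds ⟨0, by norm_num⟩) := tendsto_subtype_rng.2 (by simpa using hlim.neg)
  have lt1 : ∀ n : ℕ, 1 / ((n : ℝ) + 2) < 1 := by
    intro n
    rw [div_lt_one (by positivity)]
    have : (0 : ℝ) ≤ n := by positivity
    linarith
  have lpos : ∀ n : ℕ, 0 < 1 / ((n : ℝ) + 2) := fun n => by positivity
  have c1 : f ⟨0, by norm_num⟩ = -1 := by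
    have := (f.continuous.tendsto _).comp l1
    refine tendsto_nhds_unique this ?_
    refine tendsto_const_nhds.congr fun n => ?_
    exact (hpos' _ (lpos n) (lt1 n)).symm
  have c2 : f ⟨0, by norm_num⟩ = 1 := by
    have := (f.continuous.tendsto _).comp l2
    refine tendsto_nhds_unique this ?_
    refine tendsto_const_nhds.congr fun n => ?_
    exact (hneg' _ (by simpa using lpos n) (by simpa using lt1 n)).symm
  rw [c1] at c2
  norm_num at c2

/-- There are a nonempty compact Hausdorff space `X` and a finite `S ⊆ ℤ²` with the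
`ℂ`-extension property but without the `C(X)`-extension property. -/
theorem result : ∃ (X : Type) (_ : TopologicalSpace X) (_ : CompactSpace X) (_ : T2Space X)
    (_ : Nonempty X) (S : Finset (ℤ × ℤ)), HasExt ℂ S ∧ ¬ HasExt C(X, ℂ) S :=
  ⟨X, inferInstance, inferInstance, inferInstance, ⟨⟨0, by norm_num⟩⟩, _, scalar_ext, not_ext⟩

end Pool.Agent.Results.MP_76760e_an.PlanarQTwo
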